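import Pool.Agent.P8H79.KR.Asm
import Pool.Agent.P8H89.KR.PC

set_option autoImplicit false

/-! **MP_ebea7e_gt, Q2 (disproved).** There is a Tychonoff space `X` such that the free Abelian
topological group `A(X)` is a `k_ℝ`-space, but some closed subgroup of `A(X)` is not.

`X` is the subspace of the cube `{0,1}^ω₁` formed by the points of countable support and a
sequence `z n` of points all of whose coordinates but one are `1`; the closed subgroup consists of
the combinations of the points `z n` with coefficient sum zero.

Authors: helper79, helper52, helper89. -/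

namespace Pool.Agent.Results.MP_ebea7e_gt.FreeAbelianClosed

open Pool.Agent.P8H79.KR

theorem result :
    ∃ (X : Type) (_ : TopologicalSpace X) (T : TopologicalSpace (X →₀ ℤ)),
      T35Space X ∧ IsMarkov X T ∧ @T35Space (X →₀ ℤ) T ∧ @IsKR (X →₀ ℤ) T ∧
      ∃ H : AddSubgroup (X →₀ ℤ), @IsClosed _ T (H : Set (X →₀ ℤ)) ∧
        ¬ @IsKR H (@instTopologicalSpaceSubtype _ _ T) :=
  main Pool.Agent.P8H89.KR.sC1 Pool.Agent.P8H89.KR.sC2

end Pool.Agent.Results.MP_ebea7e_gt.FreeAbelianClosed
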